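import Mathlib

set_option autoImplicit false

namespace Pool.Agent.Results.MP_1b30fb_an.RieszDiverges

open Complex Filter Topology

/-- The character `e_b(x) = exp(2 π i (b·x)/p)` on `Z_p^2`. -/
noncomputable def chr {p : ℕ} (b x : ZMod p × ZMod p) : ℂ :=
  Complex.exp (2 * Real.pi * Complex.I * (((b.1 * x.1 + b.2 * x.2 : ZMod p).val : ℕ) : ℂ) / p)

/-- The `n × n` matrix `T` with entries `T_{ij} = e_{b_j}(x_i)`. -/
noncomputable def mat {p n : ℕ} (x b : Fin n → ZMod p × ZMod p) : Matrix (Fin n) (Fin n) ℂ :=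
  Matrix.of fun i j => chr (b j) (x i)

open scoped Classical Matrix.Norms.L2Operator in
/-- `‖M‖² ‖M⁻¹‖²` for the operator norm of Euclidean spaces, `∞` if `M` is singular. -/
noncomputable def condSq {n : ℕ} (M : Matrix (Fin n) (Fin n) ℂ) : ENNReal :=
  if IsUnit M then ENNReal.ofReal (‖M‖ ^ 2 * ‖M⁻¹‖ ^ 2) else ⊤

/-- The Riesz ratio `ρ(E)`: the minimum of `‖T‖² ‖T⁻¹‖²`, `T = T(E,B)`, over all
`B = {b_1, …, b_n}` with `n = |E|` distinct elements (`E = {x_1, …, x_n}` enumerated by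
`E.equivFin`). -/
noncomputable def rieszRatio {p : ℕ} (E : Finset (ZMod p × ZMod p)) : ENNReal :=
  ⨅ (b : Fin E.card → ZMod p × ZMod p) (_ : Function.Injective b),
    condSq (mat (fun i => (E.equivFin.symm i : ZMod p × ZMod p)) b)

/-- The set `E_n` for the prime `p = p_n`:
`({0} × Z_p) ∪ {(t,t) : t ∈ Z_p} ∪ {(1,0)}`. -/
def setE (p : ℕ) [NeZero p] : Finset (ZMod p × ZMod p) :=
  (Finset.univ.image fun y : ZMod p => ((0 : ZMod p), y)) ∪
    (Finset.univ.image fun t : ZMod p => (t, t)) ∪ {((1 : ZMod p), (0 : ZMod p))}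

/-- The `n`-th odd prime, counted from `n = 0` (so the sequence is `3, 5, 7, 11, …`). -/
noncomputable def oddPrime (n : ℕ) : ℕ := Nat.nth (fun q => q.Prime ∧ Odd q) n

theorem infinite_oddPrime : {q : ℕ | q.Prime ∧ Odd q}.Infinite := by
  have h2 : ({q : ℕ | q.Prime} \ {2}).Infinite :=
    Nat.infinite_setOfPred_prime.sdiff (Set.finite_singleton 2)
  apply h2.mono
  intro q hq
  exact ⟨hq.1, hq.1.odd_of_ne_two hq.2⟩

theorem oddPrime_prime (n : ℕ) : (oddPrime n).Prime :=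
  (Nat.nth_mem_of_infinite infinite_oddPrime n).1

instance (n : ℕ) : NeZero (oddPrime n) := ⟨(oddPrime_prime n).ne_zero⟩

theorem le_oddPrime (n : ℕ) : n ≤ oddPrime n :=
  (Nat.nth_strictMono infinite_oddPrime).le_apply

/-! ### Graph lemma -/

theorem exists_cycle {V : Type} [Fintype V] [Nonempty V] (G : SimpleGraph V)
    (h : Nat.card V ≤ Nat.card G.edgeSet) :
    ∃ m : ℕ, 2 ≤ m ∧ ∃ v : Fin (m + 1) → V, Function.Injective v ∧
      ∀ i, G.Adj (v i) (v (i + 1)) := by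
  classical
  have hna : ¬ G.IsAcyclic := by
    intro hac
    obtain ⟨F, hGF, _, hF⟩ := SimpleGraph.Connected.exists_isTree_le_of_le_of_isAcyclic
      (G := (⊤ : SimpleGraph V)) SimpleGraph.connected_top (H := G) le_top hac
    have h1 := hF.card_edgeFinset
    have h2 : G.edgeFinset.card ≤ F.edgeFinset.card :=
      Finset.card_le_card (SimpleGraph.edgeFinset_mono hGF)
    rw [Nat.card_eq_fintype_card, Nat.card_eq_fintype_card, ← SimpleGraph.edgeFinset_card] at h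
    omega
  rw [SimpleGraph.isAcyclic_iff_free_cycleGraph] at hna
  push Not at hna
  obtain ⟨k, hk, hfree⟩ := hna
  obtain ⟨m, rfl⟩ : ∃ m, k = m + 1 := ⟨k - 1, by omega⟩
  obtain ⟨φ⟩ := hfree
  refine ⟨m, by omega, φ, φ.injective, ?_⟩
  intro i
  apply φ.toHom.map_adj
  rw [SimpleGraph.cycleGraph_eq_circulantGraph, SimpleGraph.circulantGraph_adj]
  have hne : (1 : Fin (m + 1)) ≠ 0 := by
    intro h1
    have h3 := congrArg Fin.val h1
    rw [Fin.val_zero, Fin.val_one', Nat.mod_eq_of_lt (by omega)] at h3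
    omega
  refine ⟨?_, ?_⟩
  · intro h1
    apply hne
    have : i + 0 = i + 1 := by rw [add_zero]; exact h1
    exact (add_left_cancel this).symm
  · right
    simp

/-! ### The bipartite graph of `B` -/

/-- bipartite graph on `Z_p ⊔ Z_p` with an edge `b.2 — b.1 + b.2` for every `b ∈ B`. -/
def gr {p : ℕ} (B : Finset (ZMod p × ZMod p)) : SimpleGraph (ZMod p ⊕ ZMod p) :=
  SimpleGraph.fromRel (fun x y => ∃ b ∈ B, x = Sum.inl b.2 ∧ y = Sum.inr (b.1 + b.2))

theorem card_le_edges {p : ℕ} [NeZero p] (B : Finset (ZMod p × ZMod p)) :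
    B.card ≤ Nat.card (gr B).edgeSet := by
  have hmem : ∀ b : B, s(Sum.inl (b : ZMod p × ZMod p).2,
      Sum.inr ((b : ZMod p × ZMod p).1 + (b : ZMod p × ZMod p).2)) ∈ (gr B).edgeSet := by
    intro b
    rw [SimpleGraph.mem_edgeSet]
    unfold gr
    rw [SimpleGraph.fromRel_adj]
    exact ⟨by simp, Or.inl ⟨b, b.2, rfl, rfl⟩⟩
  have hcard : Nat.card B = B.card := by simp
  rw [← hcard]
  apply Nat.card_le_card_of_injective (fun b : B => (⟨_, hmem b⟩ : (gr B).edgeSet))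
  intro b c hbc
  have h1 := congrArg Subtype.val hbc
  simp only [Sym2.eq_iff, Sum.inl.injEq, Sum.inr.injEq, reduceCtorEq, and_false,
    or_false] at h1
  apply Subtype.ext
  apply Prod.ext
  · have h2 := h1.2
    rw [h1.1] at h2
    exact add_right_cancel h2
  · exact h1.1

theorem exists_edge_cycle {p : ℕ} [NeZero p] (B : Finset (ZMod p × ZMod p))
    (hB : 2 * p ≤ B.card) :
    ∃ m : ℕ, 2 ≤ m ∧ ∃ v : Fin (m + 1) → ZMod p ⊕ ZMod p, ∃ e : Fin (m + 1) → ZMod p × ZMod p,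
      (∀ i, e i ∈ B) ∧ Function.Injective e ∧
      ∀ i, (v i = Sum.inl (e i).2 ∧ v (i + 1) = Sum.inr ((e i).1 + (e i).2)) ∨
        (v i = Sum.inr ((e i).1 + (e i).2) ∧ v (i + 1) = Sum.inl (e i).2) := by
  have hV : Nat.card (ZMod p ⊕ ZMod p) = 2 * p := by
    rw [Nat.card_eq_fintype_card, Fintype.card_sum, ZMod.card]; ring
  obtain ⟨m, hm, v, hv, hadj⟩ := exists_cycle (gr B) (by
    rw [hV]; exact hB.trans (card_le_edges B))
  have hex : ∀ i, ∃ b ∈ B, (v i = Sum.inl b.2 ∧ v (i + 1) = Sum.inr (b.1 + b.2)) ∨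
        (v i = Sum.inr (b.1 + b.2) ∧ v (i + 1) = Sum.inl b.2) := by
    intro i
    have h1 := hadj i
    unfold gr at h1
    rw [SimpleGraph.fromRel_adj] at h1
    rcases h1.2 with ⟨b, hb, h2⟩ | ⟨b, hb, h2⟩
    · exact ⟨b, hb, Or.inl h2⟩
    · exact ⟨b, hb, Or.inr ⟨h2.2, h2.1⟩⟩
  choose e he hve using hex
  refine ⟨m, hm, v, e, he, ?_, hve⟩
  intro i j hij
  have hi := hve i
  have hj := hve j
  rw [← hij] at hj
  have h2ne : (1 : Fin (m + 1)) + 1 ≠ 0 := by
    intro h1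
    have h3 := congrArg Fin.val h1
    rw [Fin.val_zero, Fin.val_add, Fin.val_one', Nat.mod_eq_of_lt (show 1 < m + 1 by omega),
      Nat.mod_eq_of_lt (by omega)] at h3
    omega
  have hbad : ¬ (v i = v (j + 1) ∧ v (i + 1) = v j) := by
    rintro ⟨h1, h2⟩
    have h3 := hv h1
    have h4 := hv h2
    apply h2ne
    rw [h3, add_assoc] at h4
    exact add_eq_left.1 h4
  rcases hi with hi | hi <;> rcases hj with hj | hj
  · exact hv (hi.1.trans hj.1.symm)
  · exact absurd ⟨hi.1.trans hj.2.symm, hi.2.trans hj.1.symm⟩ hbad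
  · exact absurd ⟨hi.1.trans hj.2.symm, hi.2.trans hj.1.symm⟩ hbad
  · exact hv (hi.1.trans hj.1.symm)

/-! ### Summation by parts -/

theorem parts_bound {m : ℕ} (g φ : Fin (m + 1) → ℂ) (hφ : ∀ i, ‖φ i‖ ≤ 1) :
    ‖∑ i, g i * (φ i - φ (i + 1))‖ ≤ ∑ i, ‖g (i + 1) - g i‖ := by
  have h1 : ∑ i, g i * (φ i - φ (i + 1)) = ∑ i, (g (i + 1) - g i) * φ (i + 1) := by
    simp only [mul_sub, sub_mul, Finset.sum_sub_distrib]
    congr 1
    exact (Equiv.sum_comp (Equiv.addRight (1 : Fin (m + 1))) (fun i => g i * φ i)).symm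
  rw [h1]
  refine (norm_sum_le _ _).trans (Finset.sum_le_sum fun i _ => ?_)
  rw [norm_mul]
  exact mul_le_of_le_one_right (norm_nonneg _) (hφ _)

theorem norm_chr {p : ℕ} (b x : ZMod p × ZMod p) : ‖chr b x‖ = 1 := by
  unfold chr
  have : 2 * Real.pi * Complex.I * (((b.1 * x.1 + b.2 * x.2 : ZMod p).val : ℕ) : ℂ) / p =
      Complex.I * ((2 * Real.pi * ((b.1 * x.1 + b.2 * x.2 : ZMod p).val : ℝ) / p : ℝ) : ℂ) := by
    push_cast; ring
  rw [this, Complex.norm_exp_I_mul_ofReal]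

/-- the vector carried by the edges `e i` with weights `w i` -/
noncomputable def vec {p m : ℕ} (e : Fin (m + 1) → ZMod p × ZMod p) (w : Fin (m + 1) → ℂ) :
    ZMod p × ZMod p → ℂ := fun b => ∑ i, if e i = b then w i else 0

/-- `(T c)(x)` for `c` on `B` -/
noncomputable def app {p : ℕ} (B : Finset (ZMod p × ZMod p)) (c : ZMod p × ZMod p → ℂ)
    (x : ZMod p × ZMod p) : ℂ := ∑ b ∈ B, chr b x * c b

theorem app_vec {p m : ℕ} (B : Finset (ZMod p × ZMod p))
    (e : Fin (m + 1) → ZMod p × ZMod p) (he : ∀ i, e i ∈ B) (w : Fin (m + 1) → ℂ)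
    (x : ZMod p × ZMod p) :
    app B (vec e w) x = ∑ i, w i * chr (e i) x := by
  unfold app
  have h1 : ∀ b ∈ B, chr b x * (vec e w) b =
      ∑ i, if e i = b then w i * chr (e i) x else 0 := by
    intro b _
    unfold vec
    rw [Finset.mul_sum]
    apply Finset.sum_congr rfl
    intro i _
    by_cases h : e i = b
    · rw [if_pos h, if_pos h, h, mul_comm]
    · rw [if_neg h, if_neg h, mul_zero]
  rw [Finset.sum_congr rfl h1, Finset.sum_comm]
  apply Finset.sum_congr rfl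
  intro i _
  rw [Finset.sum_eq_single (e i)]
  · simp
  · intro b _ hb
    rw [if_neg (fun h => hb h.symm)]
  · intro h; exact absurd (he i) h

theorem vec_norm {p m : ℕ} (B : Finset (ZMod p × ZMod p))
    (e : Fin (m + 1) → ZMod p × ZMod p) (he : ∀ i, e i ∈ B) (hinj : Function.Injective e)
    (w : Fin (m + 1) → ℂ) : ∑ i, ‖w i‖ ^ 2 ≤ ∑ b ∈ B, ‖vec e w b‖ ^ 2 := by
  classical
  have h1 : ∀ i, (vec e w) (e i) = w i := by
    intro i
    unfold vec
    rw [Finset.sum_eq_single i]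
    · simp
    · intro j _ hj
      rw [if_neg (fun h => hj (hinj h))]
    · intro h; exact absurd (Finset.mem_univ _) h
  have h2 : ∑ i, ‖w i‖ ^ 2 = ∑ b ∈ Finset.univ.image e, ‖(vec e w) b‖ ^ 2 := by
    rw [Finset.sum_image (fun i _ j _ h => hinj h)]
    exact Finset.sum_congr rfl (fun i _ => by rw [h1])
  rw [h2]
  apply Finset.sum_le_sum_of_subset_of_nonneg _ (fun _ _ _ => by positivity)
  intro b hb
  obtain ⟨i, _, rfl⟩ := Finset.mem_image.1 hb
  exact he i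

/-- sign of a vertex: `1` on the left side, `-1` on the right side -/
noncomputable def sg {p : ℕ} : ZMod p ⊕ ZMod p → ℂ := Sum.elim (fun _ => 1) (fun _ => -1)

theorem norm_sg {p : ℕ} (x : ZMod p ⊕ ZMod p) : ‖sg x‖ = 1 := by
  rcases x with x | x <;> simp [sg]

theorem app_vec_bound {p m : ℕ} [NeZero p] (B : Finset (ZMod p × ZMod p))
    (v : Fin (m + 1) → ZMod p ⊕ ZMod p) (e : Fin (m + 1) → ZMod p × ZMod p) (he : ∀ i, e i ∈ B)
    (hve : ∀ i, (v i = Sum.inl (e i).2 ∧ v (i + 1) = Sum.inr ((e i).1 + (e i).2)) ∨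
        (v i = Sum.inr ((e i).1 + (e i).2) ∧ v (i + 1) = Sum.inl (e i).2))
    (g : Fin (m + 1) → ℂ) :
    ∑ x ∈ setE p, ‖app B (vec e (fun i => sg (v i) * g i)) x‖ ^ 2 ≤
      (setE p).card * (∑ i, ‖g (i + 1) - g i‖) ^ 2 +
        ‖∑ i, sg (v i) * g i * chr (e i) (1, 0)‖ ^ 2 := by
  classical
  set D := ∑ i, ‖g (i + 1) - g i‖ with hD
  have hD0 : 0 ≤ D := Finset.sum_nonneg (fun _ _ => norm_nonneg _)
  set ℓ := ∑ i, sg (v i) * g i * chr (e i) (1, 0) with hℓ
  have h0 : ∀ y : ZMod p, ‖∑ i, sg (v i) * g i * chr (e i) (0, y)‖ ≤ D := by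
    intro y
    have h1 : ∑ i, sg (v i) * g i * chr (e i) (0, y) =
        ∑ i, g i * ((Sum.elim (fun a => chr (0, a) (0, y)) (fun _ => 0) (v i) : ℂ) -
          Sum.elim (fun a => chr (0, a) (0, y)) (fun _ => 0) (v (i + 1))) := by
      apply Finset.sum_congr rfl
      intro i _
      have h2 : chr (e i) (0, y) = chr (0, (e i).2) (0, y) := by simp [chr]
      rcases hve i with h | h
      · rw [h.1, h.2, h2]; simp [sg, mul_comm]
      · rw [h.1, h.2, h2]; simp [sg]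
    rw [h1]
    apply parts_bound
    intro i
    rcases v i with a | a
    · simp [norm_chr]
    · simp
  have h1 : ∀ t : ZMod p, ‖∑ i, sg (v i) * g i * chr (e i) (t, t)‖ ≤ D := by
    intro t
    have h1 : ∑ i, sg (v i) * g i * chr (e i) (t, t) =
        ∑ i, g i * ((Sum.elim (fun _ => 0) (fun a => - chr (0, a) (t, t)) (v i) : ℂ) -
          Sum.elim (fun _ => 0) (fun a => - chr (0, a) (t, t)) (v (i + 1))) := by
      apply Finset.sum_congr rfl
      intro i _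
      have h2 : chr (e i) (t, t) = chr (0, (e i).1 + (e i).2) (t, t) := by simp [chr, add_mul]
      rcases hve i with h | h
      · rw [h.1, h.2, h2]; simp [sg]
      · rw [h.1, h.2, h2]; simp [sg]
    rw [h1]
    apply parts_bound
    intro i
    rcases v i with a | a
    · simp
    · simp [norm_chr]
  have h2' : ∀ x ∈ setE p, ‖∑ i, sg (v i) * g i * chr (e i) x‖ ^ 2 ≤
      D ^ 2 + (if x = (1, 0) then ‖ℓ‖ ^ 2 else 0) := by
    intro x hx
    unfold setE at hx
    rw [Finset.mem_union, Finset.mem_union, Finset.mem_image, Finset.mem_image,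
      Finset.mem_singleton] at hx
    have hnn : (0:ℝ) ≤ (if x = (1, 0) then ‖ℓ‖ ^ 2 else 0) := by
      split_ifs
      · positivity
      · exact le_rfl
    rcases hx with (⟨y, _, hy⟩ | ⟨t, _, ht⟩) | hx
    · rw [← hy] at hnn ⊢
      have h3 := pow_le_pow_left₀ (norm_nonneg _) (h0 y) 2
      linarith
    · rw [← ht] at hnn ⊢
      have h3 := pow_le_pow_left₀ (norm_nonneg _) (h1 t) 2
      linarith
    · rw [hx, if_pos rfl]
      have h3 : 0 ≤ D ^ 2 := by positivity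
      linarith
  have h2 : ∀ x ∈ setE p, ‖app B (vec e (fun i => sg (v i) * g i)) x‖ ^ 2 ≤
      D ^ 2 + (if x = (1, 0) then ‖ℓ‖ ^ 2 else 0) := by
    intro x hx
    rw [app_vec B e he]
    exact h2' x hx
  calc ∑ x ∈ setE p, ‖app B (vec e (fun i => sg (v i) * g i)) x‖ ^ 2
      ≤ ∑ x ∈ setE p, (D ^ 2 + (if x = (1, 0) then ‖ℓ‖ ^ 2 else 0)) :=
        Finset.sum_le_sum (fun x hx => h2 x hx)
    _ = (setE p).card * D ^ 2 + ∑ x ∈ setE p, (if x = (1, 0) then ‖ℓ‖ ^ 2 else 0) := by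
        rw [Finset.sum_add_distrib]
        simp
    _ ≤ (setE p).card * D ^ 2 + ‖ℓ‖ ^ 2 := by
        have hmem : ((1, 0) : ZMod p × ZMod p) ∈ setE p := by
          unfold setE; simp
        rw [Finset.sum_ite_eq' (setE p) ((1 : ZMod p), (0 : ZMod p)) (fun _ => ‖ℓ‖ ^ 2),
          if_pos hmem]

theorem card_setE {p : ℕ} [Fact p.Prime] : (setE p).card = 2 * p := by
  have hp : 1 < p := (Fact.out : p.Prime).one_lt
  have : Fact (1 < p) := ⟨hp⟩
  unfold setE
  have h1 : (Finset.univ.image fun y : ZMod p => ((0 : ZMod p), y)).card = p := by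
    rw [Finset.card_image_of_injective _ (fun a b h => (Prod.ext_iff.1 h).2), Finset.card_univ,
      ZMod.card]
  have h2 : (Finset.univ.image fun t : ZMod p => (t, t)).card = p := by
    rw [Finset.card_image_of_injective _ (fun a b h => (Prod.ext_iff.1 h).2), Finset.card_univ,
      ZMod.card]
  have h3 : (Finset.univ.image fun y : ZMod p => ((0 : ZMod p), y)) ∩
      (Finset.univ.image fun t : ZMod p => (t, t)) = {((0 : ZMod p), (0 : ZMod p))} := by
    ext ⟨a, b⟩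
    simp only [Finset.mem_inter, Finset.mem_image, Finset.mem_univ, true_and, Prod.mk.injEq,
      Finset.mem_singleton]
    constructor
    · rintro ⟨⟨y, h4, h5⟩, ⟨t, h6, h7⟩⟩
      exact ⟨h4.symm, by rw [← h7, h6, ← h4]⟩
    · rintro ⟨rfl, rfl⟩
      exact ⟨⟨0, rfl, rfl⟩, ⟨0, rfl, rfl⟩⟩
  have h4 := Finset.card_union_add_card_inter
    (Finset.univ.image fun y : ZMod p => ((0 : ZMod p), y))
    (Finset.univ.image fun t : ZMod p => (t, t))
  rw [h3, h1, h2, Finset.card_singleton] at h4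
  rw [Finset.card_union_of_disjoint, Finset.card_singleton]
  · omega
  · rw [Finset.disjoint_singleton_right, Finset.mem_union, Finset.mem_image, Finset.mem_image]
    rintro (⟨y, _, hy⟩ | ⟨t, _, ht⟩)
    · exact zero_ne_one (Prod.ext_iff.1 hy).1
    · have h5 := (Prod.ext_iff.1 ht).1
      have h6 := (Prod.ext_iff.1 ht).2
      simp only at h5 h6
      exact one_ne_zero (h5.symm.trans h6)

/-- core inequality: if `c ↦ app B c` is bounded below with constant `N⁻¹` then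
`N⁴ · 8 π² p ≥ 1` -/
theorem core {p : ℕ} [Fact p.Prime] (B : Finset (ZMod p × ZMod p))
    (hB : B.card = 2 * p) {N : ℝ}
    (hlow : ∀ c : ZMod p × ZMod p → ℂ, ∑ b ∈ B, ‖c b‖ ^ 2 ≤
      N ^ 2 * ∑ x ∈ setE p, ‖app B c x‖ ^ 2) :
    1 ≤ N ^ 4 * (8 * Real.pi ^ 2 * p) := by
  have hp0 : 0 < p := (Fact.out : p.Prime).pos
  have hpr : (0:ℝ) < p := by exact_mod_cast hp0
  have hpi := Real.pi_pos
  obtain ⟨m, hm, v, e, he, hinj, hve⟩ := exists_edge_cycle B hB.ge
  set k : ℝ := (m : ℝ) + 1 with hk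
  have hk0 : 0 < k := by positivity
  -- the linear functional at the extra point
  let ℓ : (Fin (m + 1) → ℂ) → ℂ := fun g => ∑ i, sg (v i) * g i * chr (e i) (1, 0)
  have hmain : ∀ g : Fin (m + 1) → ℂ, ∑ i, ‖g i‖ ^ 2 ≤
      N ^ 2 * ((2 * p : ℝ) * (∑ i, ‖g (i + 1) - g i‖) ^ 2 + ‖ℓ g‖ ^ 2) := by
    intro g
    have h1 := vec_norm B e he hinj (fun i => sg (v i) * g i)
    have h2 : ∀ i, ‖sg (v i) * g i‖ ^ 2 = ‖g i‖ ^ 2 := by
      intro i; rw [norm_mul, norm_sg, one_mul]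
    simp only [h2] at h1
    have h3 := hlow (vec e (fun i => sg (v i) * g i))
    have h4 := app_vec_bound B v e he hve g
    rw [card_setE] at h4
    push_cast at h4
    calc ∑ i, ‖g i‖ ^ 2 ≤ ∑ b ∈ B, ‖vec e (fun i => sg (v i) * g i) b‖ ^ 2 := h1
      _ ≤ N ^ 2 * ∑ x ∈ setE p, ‖app B (vec e (fun i => sg (v i) * g i)) x‖ ^ 2 := h3
      _ ≤ _ := mul_le_mul_of_nonneg_left h4 (by positivity)
  have hℓ : ∀ g : Fin (m + 1) → ℂ, ‖ℓ g‖ ≤ ∑ i, ‖g i‖ := by
    intro g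
    refine (norm_sum_le _ _).trans (Finset.sum_le_sum fun i _ => ?_)
    rw [norm_mul, norm_mul, norm_sg, norm_chr, one_mul, mul_one]
  -- case 1: the constant modulation
  have hc1 : k ≤ N ^ 2 * ‖ℓ (fun _ => 1)‖ ^ 2 := by
    have h1 := hmain (fun _ => 1)
    simpa [hk] using h1
  have hℓ1 : ‖ℓ (fun _ => 1)‖ ≤ k := by
    have h1 := hℓ (fun _ => 1)
    simpa [hk] using h1
  have h1k : 1 ≤ N ^ 2 * k := by
    have h2 : ‖ℓ (fun _ => 1)‖ ^ 2 ≤ k ^ 2 := pow_le_pow_left₀ (norm_nonneg _) hℓ1 2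
    have h3 : k ≤ N ^ 2 * k ^ 2 := hc1.trans (mul_le_mul_of_nonneg_left h2 (by positivity))
    have h4 : k * 1 ≤ k * (N ^ 2 * k) := by linarith [h3, (by ring : k * (N ^ 2 * k) = N ^ 2 * k ^ 2)]
    exact le_of_mul_le_mul_left h4 hk0
  have hℓne : ℓ (fun _ => 1) ≠ 0 := by
    intro h0
    rw [h0] at hc1
    simp at hc1
    linarith
  -- case 2: modulation by a root of unity
  set ζ : ℂ := Complex.exp (Complex.I * ((2 * Real.pi / k : ℝ) : ℂ)) with hζ
  have hζn : ‖ζ‖ = 1 := Complex.norm_exp_I_mul_ofReal _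
  have hζ1 : ‖ζ - 1‖ ≤ 2 * Real.pi / k := by
    have h1 : ‖Complex.exp (Complex.I * ((2 * Real.pi / k : ℝ) : ℂ)) - 1‖ ≤ ‖(2 * Real.pi / k : ℝ)‖ :=
      Real.norm_exp_I_mul_ofReal_sub_one_le
    rw [Real.norm_of_nonneg (by positivity)] at h1
    exact h1
  have hζk : ζ ^ (m + 1) = 1 := by
    rw [hζ, ← Complex.exp_nat_mul]
    have : ((m + 1 : ℕ) : ℂ) * (Complex.I * ((2 * Real.pi / k : ℝ) : ℂ)) = 2 * Real.pi * Complex.I := by
      have hkc : ((k : ℝ) : ℂ) ≠ 0 := by exact_mod_cast hk0.ne'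
      have hk2 : ((m + 1 : ℕ) : ℂ) = ((k : ℝ) : ℂ) := by rw [hk]; push_cast; ring
      rw [hk2]
      push_cast
      field_simp
    rw [this, Complex.exp_two_pi_mul_I]
  have hζne : ζ ≠ 1 := by
    intro h1
    rw [hζ, Complex.exp_eq_one_iff] at h1
    obtain ⟨n, hn⟩ := h1
    have h2 : (2 * Real.pi / k : ℝ) = n * (2 * Real.pi) := by
      have h3 : Complex.I * ((2 * Real.pi / k : ℝ) : ℂ) = Complex.I * ((n * (2 * Real.pi) : ℝ) : ℂ) := by
        rw [hn]; push_cast; ring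
      exact_mod_cast mul_left_cancel₀ Complex.I_ne_zero h3
    have h3 : (n : ℝ) * k = 1 := by
      field_simp at h2
      nlinarith [h2]
    have hk3 : 1 < k := by
      have : (2:ℝ) ≤ m := by exact_mod_cast hm
      rw [hk]; linarith
    have hn0 : (0:ℝ) < n := by
      by_contra hcon
      push Not at hcon
      nlinarith
    have hn1 : (1:ℝ) ≤ n := by
      have : (0:ℤ) < n := by exact_mod_cast hn0
      exact_mod_cast this
    nlinarith
  let z : Fin (m + 1) → ℂ := fun i => ζ ^ (i : ℕ)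
  have hzs : ∀ i, z (i + 1) = ζ * z i := by
    intro i
    show ζ ^ ((i + 1 : Fin (m + 1)) : ℕ) = ζ * ζ ^ (i : ℕ)
    rw [Fin.val_add, Fin.val_one', Nat.mod_eq_of_lt (show 1 < m + 1 by omega), ← pow_succ']
    rcases Nat.lt_or_ge ((i : ℕ) + 1) (m + 1) with h | h
    · rw [Nat.mod_eq_of_lt h]
    · have h2 : (i : ℕ) + 1 = m + 1 := by omega
      rw [h2, Nat.mod_self, pow_zero, hζk]
  have hzn : ∀ i, ‖z i‖ = 1 := by
    intro i
    show ‖ζ ^ (i : ℕ)‖ = 1
    rw [norm_pow, hζn, one_pow]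
  have hzsum : ∑ i, z i = 0 := by
    have h1 : ∑ i, z (i + 1) = ∑ i, z i :=
      Equiv.sum_comp (Equiv.addRight (1 : Fin (m + 1))) z
    simp only [hzs] at h1
    rw [← Finset.mul_sum] at h1
    have h2 : (ζ - 1) * ∑ i, z i = 0 := by rw [sub_mul, h1]; ring
    exact (mul_eq_zero.1 h2).resolve_left (sub_ne_zero.2 hζne)
  set α := ℓ z with hα
  set β := - ℓ (fun _ => 1) with hβ
  have hβ0 : β ≠ 0 := neg_ne_zero.2 hℓne
  have hℓlin : ℓ (fun i => α + β * z i) = 0 := by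
    have h1 : ℓ (fun i => α + β * z i) = α * ℓ (fun _ => 1) + β * ℓ z := by
      show ∑ i, _ = α * ∑ i, _ + β * ∑ i, _
      rw [Finset.mul_sum, Finset.mul_sum, ← Finset.sum_add_distrib]
      exact Finset.sum_congr rfl (fun i _ => by ring)
    rw [h1, hβ, ← hα]; ring
  have h2 := hmain (fun i => α + β * z i)
  rw [hℓlin] at h2
  have hD : ∑ i, ‖(α + β * z (i + 1)) - (α + β * z i)‖ ≤ 2 * Real.pi * ‖β‖ := by
    have h3 : ∀ i, ‖(α + β * z (i + 1)) - (α + β * z i)‖ ≤ ‖β‖ * (2 * Real.pi / k) := by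
      intro i
      have h4 : (α + β * z (i + 1)) - (α + β * z i) = β * ((ζ - 1) * z i) := by
        rw [hzs]; ring
      rw [h4, norm_mul, norm_mul, hzn, mul_one]
      exact mul_le_mul_of_nonneg_left hζ1 (norm_nonneg _)
    calc ∑ i, ‖(α + β * z (i + 1)) - (α + β * z i)‖ ≤
        ∑ _i : Fin (m + 1), ‖β‖ * (2 * Real.pi / k) := Finset.sum_le_sum (fun i _ => h3 i)
      _ = 2 * Real.pi * ‖β‖ := by
        rw [Finset.sum_const, Finset.card_univ, Fintype.card_fin, nsmul_eq_mul]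
        have hk2 : ((m + 1 : ℕ) : ℝ) = k := by rw [hk]; push_cast; ring
        rw [hk2]
        field_simp
  have hD0 : 0 ≤ ∑ i, ‖(α + β * z (i + 1)) - (α + β * z i)‖ :=
    Finset.sum_nonneg (fun _ _ => norm_nonneg _)
  have hlo : k * ‖β‖ ^ 2 ≤ ∑ i, ‖α + β * z i‖ ^ 2 := by
    have h3 : ∀ i, ‖α + β * z i‖ ^ 2 = ‖α‖ ^ 2 + ‖β‖ ^ 2 +
        2 * ((starRingEnd ℂ) α * β * z i).re := by
      intro i
      rw [← Complex.normSq_eq_norm_sq, Complex.normSq_add, Complex.normSq_eq_norm_sq,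
        Complex.normSq_eq_norm_sq, norm_mul, hzn, mul_one]
      congr 2
      have h5 : α * (starRingEnd ℂ) (β * z i) = (starRingEnd ℂ) ((starRingEnd ℂ) α * β * z i) := by
        simp [mul_assoc]
      rw [h5, Complex.conj_re]
    simp only [h3]
    rw [Finset.sum_add_distrib, ← Finset.mul_sum, ← Complex.re_sum, ← Finset.mul_sum, hzsum,
      mul_zero, Complex.zero_re, mul_zero, add_zero, Finset.sum_const, Finset.card_univ,
      Fintype.card_fin, nsmul_eq_mul]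
    have hk2 : ((m + 1 : ℕ) : ℝ) = k := by rw [hk]; push_cast; ring
    rw [hk2]
    have : 0 ≤ k * ‖α‖ ^ 2 := by positivity
    nlinarith
  have hβn : 0 < ‖β‖ ^ 2 := by positivity
  have hk2 : k ≤ N ^ 2 * (8 * Real.pi ^ 2 * p) := by
    have h3 : (∑ i, ‖(α + β * z (i + 1)) - (α + β * z i)‖) ^ 2 ≤ (2 * Real.pi * ‖β‖) ^ 2 :=
      pow_le_pow_left₀ hD0 hD 2
    have h4 : k * ‖β‖ ^ 2 ≤ N ^ 2 * ((2 * p : ℝ) * (2 * Real.pi * ‖β‖) ^ 2) := by
      refine hlo.trans (h2.trans ?_)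
      apply mul_le_mul_of_nonneg_left _ (by positivity)
      rw [norm_zero]
      have := mul_le_mul_of_nonneg_left h3 (show (0:ℝ) ≤ 2 * p by positivity)
      linarith
    have h5 : N ^ 2 * ((2 * p : ℝ) * (2 * Real.pi * ‖β‖) ^ 2) =
        (N ^ 2 * (8 * Real.pi ^ 2 * p)) * ‖β‖ ^ 2 := by ring
    rw [h5] at h4
    exact le_of_mul_le_mul_right h4 hβn
  -- combine
  have h3 : N ^ 2 * k ≤ N ^ 2 * (N ^ 2 * (8 * Real.pi ^ 2 * p)) :=
    mul_le_mul_of_nonneg_left hk2 (by positivity)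
  calc (1:ℝ) ≤ N ^ 2 * k := h1k
    _ ≤ N ^ 2 * (N ^ 2 * (8 * Real.pi ^ 2 * p)) := h3
    _ = _ := by ring

open scoped Matrix.Norms.L2Operator in
theorem l2_bound {n : ℕ} (M : Matrix (Fin n) (Fin n) ℂ) (c : Fin n → ℂ) :
    ∑ i, ‖(M.mulVec c) i‖ ^ 2 ≤ ‖M‖ ^ 2 * ∑ i, ‖c i‖ ^ 2 := by
  have h1 := Matrix.l2_opNorm_mulVec M (WithLp.toLp 2 c)
  have h2 := pow_le_pow_left₀ (norm_nonneg _) h1 2
  rw [mul_pow, EuclideanSpace.norm_sq_eq, EuclideanSpace.norm_sq_eq] at h2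
  exact h2

open scoped Matrix.Norms.L2Operator in
theorem ratio_lower {p n : ℕ} [Fact p.Prime] (x b : Fin n → ZMod p × ZMod p)
    (hn : n = 2 * p) (hx : Finset.univ.image x = setE p) (hxi : Function.Injective x)
    (hb : Function.Injective b) (hu : IsUnit (mat x b)) :
    (p : ℝ) / (2 * Real.pi ^ 2) ≤ (‖mat x b‖ ^ 2 * ‖(mat x b)⁻¹‖ ^ 2) ^ 2 := by
  classical
  have hp0 : 0 < p := (Fact.out : p.Prime).pos
  have hpr : (0:ℝ) < p := by exact_mod_cast hp0
  have hpi := Real.pi_pos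
  set M := mat x b with hM
  set N := ‖M⁻¹‖ with hN
  set B := Finset.univ.image b with hB
  have hBc : B.card = 2 * p := by
    rw [hB, Finset.card_image_of_injective _ hb, Finset.card_univ, Fintype.card_fin, hn]
  have happ : ∀ c : ZMod p × ZMod p → ℂ, ∀ i, (M.mulVec (fun j => c (b j))) i =
      app B c (x i) := by
    intro c i
    unfold app
    rw [hB, Finset.sum_image (fun i _ j _ h => hb h)]
    rfl
  have hlow : ∀ c : ZMod p × ZMod p → ℂ, ∑ b ∈ B, ‖c b‖ ^ 2 ≤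
      N ^ 2 * ∑ x ∈ setE p, ‖app B c x‖ ^ 2 := by
    intro c
    have h1 := l2_bound M⁻¹ (M.mulVec (fun j => c (b j)))
    have hdet : IsUnit M.det := (Matrix.isUnit_iff_isUnit_det M).1 hu
    rw [Matrix.mulVec_mulVec, Matrix.nonsing_inv_mul M hdet, Matrix.one_mulVec] at h1
    have h2 : ∑ b ∈ B, ‖c b‖ ^ 2 = ∑ j, ‖c (b j)‖ ^ 2 := by
      rw [hB, Finset.sum_image (fun i _ j _ h => hb h)]
    have h3 : ∑ x ∈ setE p, ‖app B c x‖ ^ 2 = ∑ i, ‖(M.mulVec (fun j => c (b j))) i‖ ^ 2 := by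
      rw [← hx, Finset.sum_image (fun i _ j _ h => hxi h)]
      exact Finset.sum_congr rfl (fun i _ => by rw [happ])
    rw [h2, h3]
    exact h1
  have hN4 := core B hBc hlow
  -- lower bound of the norm
  have hT : (2 * p : ℝ) ≤ ‖M‖ ^ 2 := by
    have hn0 : 0 < n := by omega
    have h1 := l2_bound M (Pi.single (⟨0, hn0⟩ : Fin n) 1)
    have h2 : ∀ i, ‖(M.mulVec (Pi.single (⟨0, hn0⟩ : Fin n) 1)) i‖ ^ 2 = 1 := by
      intro i
      rw [Matrix.mulVec_single_one]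
      show ‖chr (b ⟨0, hn0⟩) (x i)‖ ^ 2 = 1
      rw [norm_chr, one_pow]
    have h3 : ∑ i : Fin n, ‖(Pi.single (⟨0, hn0⟩ : Fin n) (1:ℂ) : Fin n → ℂ) i‖ ^ 2 = 1 := by
      rw [Finset.sum_eq_single (⟨0, hn0⟩ : Fin n)]
      · simp
      · intro i _ hi
        simp [Pi.single_eq_of_ne hi]
      · intro h; exact absurd (Finset.mem_univ _) h
    simp only [h2] at h1
    rw [h3, mul_one, Finset.sum_const, Finset.card_univ, Fintype.card_fin, nsmul_eq_mul,
      mul_one] at h1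
    have h4 : (n : ℝ) = 2 * p := by exact_mod_cast hn
    rw [← h4]
    exact h1
  have hT2 : (2 * p : ℝ) ^ 2 ≤ (‖M‖ ^ 2) ^ 2 := pow_le_pow_left₀ (by positivity) hT 2
  calc (p : ℝ) / (2 * Real.pi ^ 2) = (2 * p : ℝ) ^ 2 * (1 / (8 * Real.pi ^ 2 * p)) := by
        field_simp; ring
    _ ≤ (‖M‖ ^ 2) ^ 2 * N ^ 4 := by
        apply mul_le_mul hT2 _ (by positivity) (by positivity)
        rw [div_le_iff₀ (by positivity)]
        exact hN4
    _ = (‖M‖ ^ 2 * N ^ 2) ^ 2 := by ring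

theorem rieszRatio_ge {p : ℕ} [Fact p.Prime] :
    ENNReal.ofReal (Real.sqrt ((p : ℝ) / (2 * Real.pi ^ 2))) ≤ rieszRatio (setE p) := by
  classical
  unfold rieszRatio
  apply le_iInf
  intro b
  apply le_iInf
  intro hb
  unfold condSq
  split_ifs with hu
  · apply ENNReal.ofReal_le_ofReal
    have hxi : Function.Injective
        (fun i => ((setE p).equivFin.symm i : ZMod p × ZMod p)) :=
      Subtype.val_injective.comp (setE p).equivFin.symm.injective
    have hx : Finset.univ.image (fun i => ((setE p).equivFin.symm i : ZMod p × ZMod p)) =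
        setE p := by
      ext y
      rw [Finset.mem_image]
      constructor
      · rintro ⟨i, _, rfl⟩
        exact ((setE p).equivFin.symm i).2
      · intro hy
        exact ⟨(setE p).equivFin ⟨y, hy⟩, Finset.mem_univ _, by simp⟩
    have h1 := ratio_lower _ b card_setE hx hxi hb hu
    exact Real.sqrt_le_iff.2 ⟨by positivity, h1⟩
  · exact le_top

/-- **Q1 (proved):** the Riesz ratios `ρ(E_n)` tend to infinity. -/
theorem result : Tendsto (fun n : ℕ => rieszRatio (setE (oddPrime n))) atTop (𝓝 ⊤) := by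
  have h1 : Tendsto (fun n : ℕ => ENNReal.ofReal (Real.sqrt ((oddPrime n : ℝ) /
      (2 * Real.pi ^ 2)))) atTop (𝓝 ⊤) := by
    apply ENNReal.tendsto_ofReal_atTop.comp
    apply Real.tendsto_sqrt_atTop.comp
    apply Tendsto.atTop_div_const (by positivity)
    exact tendsto_natCast_atTop_atTop.comp (tendsto_atTop_mono le_oddPrime tendsto_id)
  refine tendsto_nhds_top_mono h1 (Eventually.of_forall fun n => ?_)
  have : Fact (oddPrime n).Prime := ⟨oddPrime_prime n⟩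
  exact rieszRatio_ge

end Pool.Agent.Results.MP_1b30fb_an.RieszDiverges
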